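import Mathlib
import Pool.Agent.Helper923.PNT

/-!
# Colouring the `n × n` grid with no-three-in-line colour classes

For every prime `p ≥ n` the grid `[n]²` has an admissible colouring with `p` colours: the classes
are the translates `y ≡ x² + c (mod p)` of the modular parabola. With the prime number theorem (from
the library) it follows that for every `ε > 0` and all large `n` there is an admissible colouring with
at most `(1 + ε) n` colours.
-/

namespace Pool.Agent.Results.MP_1efb31_co.PrimeBound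

/-- The cell `a` of the `n × n` board as a point of `{1, …, n}² ⊆ ℝ²`. -/
def pt {n : ℕ} (a : Fin n × Fin n) : ℝ × ℝ := ((a.1.val : ℝ) + 1, (a.2.val : ℝ) + 1)

/-- No three distinct points of `S` lie on a common straight line. -/
def NoThreeInLine {n : ℕ} (S : Set (Fin n × Fin n)) : Prop :=
  ∀ a ∈ S, ∀ b ∈ S, ∀ c ∈ S, a ≠ b → b ≠ c → a ≠ c → ¬ Collinear ℝ {pt a, pt b, pt c}

/-- A colouring is admissible if every colour class has the no-three-in-line property. -/
def Admissible {n k : ℕ} (f : Fin n × Fin n → Fin k) : Prop :=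
  ∀ i : Fin k, NoThreeInLine {a | f a = i}

/-- The least number of colours in an admissible colouring of `[n]²`. -/
noncomputable def chi (n : ℕ) : ℕ := sInf {k | ∃ f : Fin n × Fin n → Fin k, Admissible f}

theorem det_of_collinear {P Q R : ℝ × ℝ} (h : Collinear ℝ {P, Q, R}) :
    (Q.1 - P.1) * (R.2 - P.2) - (R.1 - P.1) * (Q.2 - P.2) = 0 := by
  rw [collinear_iff_of_mem (p₀ := P) (by simp)] at h
  obtain ⟨v, hv⟩ := h
  obtain ⟨r, hr⟩ := hv Q (by simp)
  obtain ⟨s, hs⟩ := hv R (by simp)
  rw [hr, hs]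
  simp only [vadd_eq_add, Prod.fst_add, Prod.snd_add, Prod.smul_fst, Prod.smul_snd, smul_eq_mul]
  ring

/-- For every prime `p ≥ n` there is an admissible colouring with `p` colours. -/
theorem exists_col (p n : ℕ) (hp : p.Prime) (hn : n ≤ p) :
    ∃ f : Fin n × Fin n → Fin p, Admissible f := by
  haveI : Fact p.Prime := ⟨hp⟩
  haveI : NeZero p := ⟨hp.ne_zero⟩
  -- the colouring
  let g : Fin n × Fin n → ZMod p := fun a => (a.2.val : ZMod p) - (a.1.val : ZMod p) ^ 2
  let f : Fin n × Fin n → Fin p := fun a => ⟨(g a).val, ZMod.val_lt (g a)⟩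
  have hfg : ∀ a b, f a = f b → g a = g b := by
    intro a b h
    have h2 : (g a).val = (g b).val := congrArg Fin.val h
    exact ZMod.val_injective p h2
  have hinj : ∀ x y : Fin n, (x.val : ZMod p) = (y.val : ZMod p) → x = y := by
    intro x y h
    have h1 := congrArg ZMod.val h
    rw [ZMod.val_natCast_of_lt (lt_of_lt_of_le x.isLt hn),
      ZMod.val_natCast_of_lt (lt_of_lt_of_le y.isLt hn)] at h1
    exact Fin.ext h1
  have hcol : ∀ a b, g a = g b → a.1 = b.1 → a = b := by
    intro a b h h1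
    have h2 : (a.2.val : ZMod p) = (b.2.val : ZMod p) := by
      have h3 : (a.2.val : ZMod p) - (a.1.val : ZMod p) ^ 2
          = (b.2.val : ZMod p) - (b.1.val : ZMod p) ^ 2 := h
      rw [h1] at h3
      exact sub_left_injective h3
    exact Prod.ext h1 (hinj _ _ h2)
  refine ⟨f, ?_⟩
  intro i a ha b hb c hc hab hbc hac hcoll
  have hfa : f a = i := ha
  have hfb : f b = i := hb
  have hfc : f c = i := hc
  have hgab : g a = g b := hfg a b (hfa.trans hfb.symm)
  have hgac : g a = g c := hfg a c (hfa.trans hfc.symm)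
  have hgbc : g b = g c := hgab.symm.trans hgac
  have hdet := det_of_collinear hcoll
  simp only [pt] at hdet
  -- the determinant over the integers
  have hZ : (((b.1.val : ℤ) - a.1.val) * ((c.2.val : ℤ) - a.2.val)
      - ((c.1.val : ℤ) - a.1.val) * ((b.2.val : ℤ) - a.2.val) : ℤ) = 0 := by
    have : ((((b.1.val : ℤ) - a.1.val) * ((c.2.val : ℤ) - a.2.val)
      - ((c.1.val : ℤ) - a.1.val) * ((b.2.val : ℤ) - a.2.val) : ℤ) : ℝ) = 0 := by
      push_cast
      linarith
    exact_mod_cast this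
  have hmod : ((b.1.val : ZMod p) - a.1.val) * ((c.2.val : ZMod p) - a.2.val)
      - ((c.1.val : ZMod p) - a.1.val) * ((b.2.val : ZMod p) - a.2.val) = 0 := by
    have h := congrArg (Int.cast : ℤ → ZMod p) hZ
    push_cast at h
    exact h
  have e1 : (b.2.val : ZMod p) = (b.1.val : ZMod p) ^ 2 + g a := by
    rw [hgab]; simp only [g]; ring
  have e2 : (c.2.val : ZMod p) = (c.1.val : ZMod p) ^ 2 + g a := by
    rw [hgac]; simp only [g]; ring
  have e3 : (a.2.val : ZMod p) = (a.1.val : ZMod p) ^ 2 + g a := by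
    simp only [g]; ring
  rw [e1, e2, e3] at hmod
  have hprod : ((b.1.val : ZMod p) - a.1.val) * ((c.1.val : ZMod p) - a.1.val)
      * ((c.1.val : ZMod p) - b.1.val) = 0 := by
    linear_combination hmod
  rcases mul_eq_zero.mp hprod with h | h
  · rcases mul_eq_zero.mp h with h | h
    · exact hab (hcol a b hgab (hinj _ _ (sub_eq_zero.mp h)).symm)
    · exact hac (hcol a c hgac (hinj _ _ (sub_eq_zero.mp h)).symm)
  · exact hbc (hcol b c hgbc (hinj _ _ (sub_eq_zero.mp h)).symm)

open Filter Topology in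
/-- There is a prime in `(x, (1 + η) x]` for large `x`. -/
theorem prime_short {η : ℝ} (hη : 0 < η) :
    ∀ᶠ x : ℝ in atTop, ∃ p : ℕ, p.Prime ∧ x < (p : ℝ) ∧ (p : ℝ) ≤ (1 + η) * x := by
  have h1 := Pool.Agent.Helper923.PNT.theta_div_tendsto
  have h2 : Tendsto (fun x : ℝ => Chebyshev.theta ((1 + η) * x) / ((1 + η) * x)) atTop (𝓝 1) :=
    h1.comp (tendsto_id.const_mul_atTop (by positivity))
  have h3 : Tendsto (fun x : ℝ => (1 + η) * (Chebyshev.theta ((1 + η) * x) / ((1 + η) * x)) -
      Chebyshev.theta x / x) atTop (𝓝 ((1 + η) * 1 - 1)) := (h2.const_mul _).sub h1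
  have h4 : ∀ᶠ x : ℝ in atTop, 0 < (1 + η) * (Chebyshev.theta ((1 + η) * x) / ((1 + η) * x)) -
      Chebyshev.theta x / x := h3.eventually (lt_mem_nhds (by linarith))
  filter_upwards [h4, eventually_gt_atTop 0] with x hx hx0
  by_contra hcon
  push Not at hcon
  have h5 : Chebyshev.theta ((1 + η) * x) ≤ Chebyshev.theta x := by
    unfold Chebyshev.theta
    apply Finset.sum_le_sum_of_subset_of_nonneg
    · intro p hp
      rw [Finset.mem_filter, Finset.mem_Ioc] at hp ⊢
      refine ⟨⟨hp.1.1, ?_⟩, hp.2⟩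
      rw [Nat.le_floor_iff hx0.le]
      by_contra hlt
      have h6 := hcon p hp.2 (not_le.1 hlt)
      have h7 := (Nat.le_floor_iff (by positivity)).1 hp.1.2
      linarith
    · intro p hp _
      rw [Finset.mem_filter, Finset.mem_Ioc] at hp
      exact Real.log_nonneg (by exact_mod_cast hp.1.1)
  have h8 : (1 + η) * (Chebyshev.theta ((1 + η) * x) / ((1 + η) * x)) =
      Chebyshev.theta ((1 + η) * x) / x := by
    field_simp
  rw [h8, ← sub_div] at hx
  have h9 : 0 < Chebyshev.theta ((1 + η) * x) - Chebyshev.theta x := by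
    by_contra hle
    have := div_nonpos_of_nonpos_of_nonneg (not_lt.1 hle) hx0.le
    linarith
  linarith

/-- (1) `chi n ≤ p` for every prime `p ≥ n`. (2) For every `ε > 0` and all large `n` there is an
admissible colouring of `[n]²` with at most `(1 + ε) n` colours. (3) `chi n / n` is at most `1 + ε` for all
large `n`. -/
theorem result : (∀ p n : ℕ, p.Prime → n ≤ p → chi n ≤ p) ∧
    (∀ ε : ℝ, 0 < ε → ∀ᶠ n : ℕ in Filter.atTop,
      ∃ (k : ℕ) (f : Fin n × Fin n → Fin k), (k : ℝ) ≤ (1 + ε) * n ∧ Admissible f) ∧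
    ∀ ε : ℝ, 0 < ε → ∀ᶠ n : ℕ in Filter.atTop, (chi n : ℝ) / n ≤ 1 + ε := by
  have h1 : ∀ p n : ℕ, p.Prime → n ≤ p → chi n ≤ p :=
    fun p n hp hn => Nat.sInf_le (exists_col p n hp hn)
  have h2 : ∀ ε : ℝ, 0 < ε → ∀ᶠ n : ℕ in Filter.atTop,
      ∃ p : ℕ, p.Prime ∧ n ≤ p ∧ (p : ℝ) ≤ (1 + ε) * n := by
    intro ε hε
    filter_upwards [tendsto_natCast_atTop_atTop.eventually (prime_short hε)] with n hn
    obtain ⟨p, hp, hlt, hle⟩ := hn
    exact ⟨p, hp, by exact_mod_cast hlt.le, hle⟩
  refine ⟨h1, fun ε hε => ?_, fun ε hε => ?_⟩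
  · filter_upwards [h2 ε hε] with n hn
    obtain ⟨p, hp, hnp, hle⟩ := hn
    obtain ⟨f, hf⟩ := exists_col p n hp hnp
    exact ⟨p, f, hle, hf⟩
  · filter_upwards [h2 ε hε, Filter.eventually_gt_atTop 0] with n hn hn0
    obtain ⟨p, hp, hnp, hle⟩ := hn
    have h3 : (chi n : ℝ) ≤ p := by exact_mod_cast h1 p n hp hnp
    have h4 : (0 : ℝ) < n := by exact_mod_cast hn0
    rw [div_le_iff₀ h4]
    linarith

end Pool.Agent.Results.MP_1efb31_co.PrimeBound
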